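import Mathlib

/-!
# Erdős' inequalities for sums of consecutive `n`-th powers

Write `S(k) = 1^n + ... + k^n`.  If `(1-1/m)^n > 1/2` then `(m+1)^n < S(m)`.
The proof is a downward comparison of `S(j)/(j+1)^n` with the linear function
`(M - 2 L v)/(M + 2 L)`, where `M = m - 1/2`, `L = log 2`, `v = m - 1 - j`; the
one-step inequality is a one-variable inequality whose second order slack is
`(3/2 L^2 - L) (v/M)^2 > 0`.
-/

set_option autoImplicit false

namespace Pool.Agent.U535.ErdosSum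

open Real Finset

/-- `log ((z+1/2)/(z-1/2))`, the increment of `log`, seen from the midpoint. -/
noncomputable def lam (z : ℝ) : ℝ := Real.log ((z + 1/2) / (z - 1/2))

lemma lam_eq {z : ℝ} (hz : 1/2 < z) :
    lam z = 2 * (1 / 2 * Real.log ((1 + 1/(2*z)) / (1 - 1/(2*z)))) := by
  unfold lam
  have h1 : (z + 1/2) / (z - 1/2) = (1 + 1/(2*z)) / (1 - 1/(2*z)) := by
    have h2 : z - 1/2 ≠ 0 := by linarith
    have h3 : z ≠ 0 := by linarith
    have h4 : (1 - 1/(2*z)) ≠ 0 := by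
      have : 1/(2*z) < 1 := by
        rw [div_lt_one (by linarith)]; linarith
      linarith
    rw [div_eq_div_iff h2 h4]
    field_simp
  rw [h1]; ring

lemma lam_lower {z : ℝ} (hz : 1/2 < z) : 1 / z + 1 / (12 * z^3) ≤ lam z := by
  have hz0 : 0 < z := by linarith
  have h0 : 0 ≤ 1/(2*z) := by positivity
  have h1 : 1/(2*z) < 1 := by
    rw [div_lt_one (by linarith)]; linarith
  have h := Real.sum_range_le_log_div h0 h1 2
  rw [lam_eq hz]
  simp only [Finset.sum_range_succ, Finset.sum_range_zero] at h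
  have e : 1 / z + 1 / (12 * z^3) = 2 * (0 + (1/(2*z))^(2*0+1) / (2 * ((0:ℕ):ℝ) + 1)
      + (1/(2*z))^(2*1+1) / (2 * ((1:ℕ):ℝ) + 1)) := by
    push_cast
    field_simp
    ring
  rw [e]
  linarith

lemma one_div_div_eq (z : ℝ) {w : ℝ} (hw : w ≠ 0) (hz0 : 0 < z) :
    2 * (1 / (2*z)^(2*2+1) / (w / (4*z^2))) = 1 / (4 * z^3 * w) := by
  field_simp
  ring

lemma lam_upper {z : ℝ} (hz : 3/2 ≤ z) : lam z ≤ 1 / z + 1 / (12 * z^3) + (9/128) / z^5 := by
  have hz0 : 0 < z := by linarith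
  have h0 : 0 ≤ 1/(2*z) := by positivity
  have h1 : 1/(2*z) < 1 := by
    rw [div_lt_one (by linarith)]; linarith
  have h := Real.log_div_le_sum_range_add h0 h1 2
  rw [lam_eq (by linarith)]
  simp only [Finset.sum_range_succ, Finset.sum_range_zero] at h
  have e : 1 / z + 1 / (12 * z^3) = 2 * (0 + (1/(2*z))^(2*0+1) / (2 * ((0:ℕ):ℝ) + 1)
      + (1/(2*z))^(2*1+1) / (2 * ((1:ℕ):ℝ) + 1)) := by
    push_cast
    field_simp
    ring
  have e2 : 2 * ((1/(2*z))^(2*2+1) / (1 - (1/(2*z))^2)) ≤ (9/128) / z^5 := by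
    have h3 : (0:ℝ) < 4*z^2 - 1 := by nlinarith
    have e3 : 2 * ((1/(2*z))^(2*2+1) / (1 - (1/(2*z))^2)) = 1 / (4 * z^3 * (4*z^2-1)) := by
      have h4 : (1 - (1/(2*z))^2) = (4*z^2-1)/(4*z^2) := by field_simp; ring
      have h3' : 4*z^2 - 1 ≠ 0 := h3.ne'
      rw [h4, one_div_pow, one_div_div_eq z h3' hz0]
    rw [e3, div_le_div_iff₀ (by positivity) (by positivity)]
    have h5 : 0 < z^3 := by positivity
    have h6 : z^2 * 32 ≤ 9 * (4*z^2-1) := by nlinarith
    nlinarith [mul_le_mul_of_nonneg_left h6 h5.le]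
  rw [e]
  linarith

lemma L_lo : (0.6931 : ℝ) ≤ Real.log 2 := by
  have := Real.log_two_gt_d9; linarith

lemma L_hi : Real.log 2 ≤ (0.6932 : ℝ) := by
  have := Real.log_two_lt_d9; linarith

/-- The rational inequality behind the one-step comparison. -/
lemma step_rational {M v : ℝ} (hM : 23.5 ≤ M) (hv : 1 ≤ v) (hv2 : 1.38 * v ≤ M) :
    (1 / (M - v) + 1 / (12 * (M - v)^3) + (9/128) / (M - v)^5) * (2 * M - 2.0793 * v)
      ≤ (2 * M - 0.0793 * v) * (1 / M + 1 / (12 * M^3)) := by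
  obtain ⟨z, hz⟩ : ∃ z, z = M - v := ⟨_, rfl⟩
  rw [← hz]
  have hM0 : 0 < M := by linarith
  have hz1 : 0.27 * M ≤ z := by rw [hz]; linarith
  have hz0 : 0 < z := by linarith
  have hvz : v = M - z := by linarith
  set Q : ℝ := (2 * M - 2.0793 * v) / z with hQ
  set P : ℝ := (2 * M - 0.0793 * v) / M with hP
  have hPQ : P = Q + 0.0793 * v^2 / (M * z) := by
    rw [hP, hQ, hvz]
    field_simp
    ring
  have hQ0 : 0 ≤ Q := by
    rw [hQ]; apply div_nonneg _ hz0.le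
    linarith
  have hQ2 : Q ≤ 2 := by
    rw [hQ, div_le_iff₀ hz0, hz]
    linarith
  have eL : (1 / z + 1 / (12 * z^3) + (9/128) / z^5) * (2 * M - 2.0793 * v)
      = Q + Q / (12 * z^2) + (9/128) * Q / z^4 := by
    rw [hQ]; field_simp
  have eR : (2 * M - 0.0793 * v) * (1 / M + 1 / (12 * M^3)) = P + P / (12 * M^2) := by
    rw [hP]; field_simp
  rw [eL, eR]
  have hPQ' : Q ≤ P := by
    rw [hPQ]
    have : 0 ≤ 0.0793 * v^2 / (M * z) := by positivity
    linarith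
  have h1 : Q / (12 * M^2) ≤ P / (12 * M^2) := by gcongr
  -- Q/(12 z^2) - Q/(12 M^2) ≤ v/(3 M z^2)
  have h2 : Q / (12 * z^2) - Q / (12 * M^2) ≤ v / (3 * M * z^2) := by
    have e1 : Q / (12 * z^2) - Q / (12 * M^2) = Q * (v * (M + z)) / (12 * z^2 * M^2) := by
      rw [hvz]; field_simp; ring
    rw [e1, div_le_div_iff₀ (by positivity) (by positivity)]
    have h3 : Q * (v * (M + z)) ≤ 2 * (v * (2 * M)) := by
      have : v * (M + z) ≤ v * (2 * M) := by
        apply mul_le_mul_of_nonneg_left _ (by linarith)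
        linarith
      exact mul_le_mul hQ2 this (by positivity) (by norm_num)
    calc Q * (v * (M + z)) * (3 * M * z^2) ≤ 2 * (v * (2 * M)) * (3 * M * z^2) := by
          apply mul_le_mul_of_nonneg_right h3 (by positivity)
      _ = v * (12 * z^2 * M^2) := by ring
  have h3 : (9/128) * Q / z^4 ≤ (9/64) / z^4 := by
    gcongr
    linarith
  -- final
  have h4 : v / (3 * M * z^2) + (9/64) / z^4 ≤ 0.0793 * v^2 / (M * z) := by
    have e1 : v / (3 * M * z^2) + (9/64) / z^4 = (v / (3 * z) + (9/64) * M / z^3) / (M * z) := by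
      field_simp
    rw [e1]
    apply div_le_div_of_nonneg_right _ (by positivity)
    have h5 : v / (3 * z) ≤ v^2 * (1.235 / M) := by
      rw [div_le_iff₀ (by positivity)]
      have : v ^ 2 * (1.235 / M) * (3 * z) = v^2 * (3.705 * z / M) := by field_simp; ring
      rw [this]
      have h6 : 1 ≤ 3.705 * z / M := by
        rw [le_div_iff₀ hM0]; linarith
      nlinarith
    have h6 : (9/64) * M / z^3 ≤ v^2 * (7.2 / M^2) := by
      have h7 : (0.27 * M)^3 ≤ z^3 := by gcongr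
      have h8 : (9/64) * M / z^3 ≤ 7.2 / M^2 := by
        rw [div_le_div_iff₀ (by positivity) (by positivity)]
        nlinarith
      have h9 : 0 ≤ 7.2 / M^2 := by positivity
      have h10 : 1 ≤ v^2 := by nlinarith
      nlinarith
    have h7 : 1.235 / M + 7.2 / M^2 ≤ 0.0793 := by
      have e : 1.235 / M + 7.2 / M^2 = (1.235 * M + 7.2) / M^2 := by field_simp
      rw [e, div_le_iff₀ (by positivity)]
      nlinarith
    have h8 : 0 ≤ v^2 := by positivity
    calc v / (3 * z) + (9/64) * M / z^3 ≤ v^2 * (1.235 / M) + v^2 * (7.2 / M^2) := add_le_add h5 h6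
      _ = v^2 * (1.235 / M + 7.2 / M^2) := by ring
      _ ≤ v^2 * 0.0793 := mul_le_mul_of_nonneg_left h7 h8
      _ = 0.0793 * v^2 := by ring
  linarith

/-- The one-step analytic inequality. -/
lemma step_log {M v n : ℝ} (hM : 23.5 ≤ M) (hv : 1 ≤ v) (hpos : 0 < M - 2 * Real.log 2 * v)
    (hn : 0 ≤ n) (hn2 : n * lam M ≤ Real.log 2) :
    n * lam (M - v) ≤ Real.log ((2 * M - 2 * Real.log 2 * v) / (M - 2 * Real.log 2 * v)) := by
  have hL1 := L_lo
  have hL2 := L_hi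
  set L := Real.log 2 with hL
  have hM0 : 0 < M := by linarith
  have hv2 : 1.38 * v ≤ M := by nlinarith
  have hz1 : 0.27 * M ≤ M - v := by linarith
  have hz32 : 3/2 ≤ M - v := by linarith
  have hup := lam_upper hz32
  have hlo := lam_lower (z := M) (by linarith)
  have hr := step_rational hM hv hv2
  have hD : 0 < 2 * M - 2.0793 * v := by linarith
  have hD2 : 0 < 2 * M - 3 * L * v := by nlinarith
  -- the log side
  have hlogside : L + L * (2 * v / (2 * M - 3 * L * v)) ≤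
      Real.log ((2 * M - 2 * L * v) / (M - 2 * L * v)) := by
    have hne : M - 2 * L * v ≠ 0 := hpos.ne'
    have e1 : (2 * M - 2 * L * v) / (M - 2 * L * v) = 2 * (1 + L * v / (M - 2 * L * v)) := by
      have h9 : 1 + L * v / (M - 2 * L * v) = (M - 2 * L * v + L * v) / (M - 2 * L * v) := by
        rw [add_div, div_self hne]
      rw [h9, ← mul_div_assoc]
      congr 1
      ring
    have hx : 0 ≤ L * v / (M - 2 * L * v) := by
      apply div_nonneg _ hpos.le
      nlinarith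
    rw [e1, Real.log_mul (by norm_num) (by linarith)]
    have h2 := Real.le_log_one_add_of_nonneg hx
    have e2 : 2 * (L * v / (M - 2 * L * v)) / (L * v / (M - 2 * L * v) + 2)
        = L * (2 * v / (2 * M - 3 * L * v)) := by
      have h3 : L * v / (M - 2 * L * v) + 2 = (2 * M - 3 * L * v) / (M - 2 * L * v) := by
        rw [eq_div_iff hne, add_mul, div_mul_cancel₀ _ hne]
        ring
      rw [h3, div_div_eq_mul_div, mul_assoc, div_mul_cancel₀ _ hne]
      ring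
    rw [e2] at h2
    linarith
  refine le_trans ?_ hlogside
  -- the ratio side
  have hlampos : 0 < 1 / M + 1 / (12 * M^3) := by positivity
  have hnb : n * (1 / M + 1 / (12 * M^3)) ≤ L :=
    le_trans (mul_le_mul_of_nonneg_left hlo hn) hn2
  have h1 : n * lam (M - v) ≤ n * (1 / (M-v) + 1 / (12 * (M-v)^3) + (9/128) / (M-v)^5) :=
    mul_le_mul_of_nonneg_left hup hn
  refine le_trans h1 ?_
  have h2 : (1 / (M - v) + 1 / (12 * (M - v)^3) + (9/128) / (M - v)^5) ≤
      (2 * M - 0.0793 * v) / (2 * M - 2.0793 * v) * (1 / M + 1 / (12 * M^3)) := by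
    rw [div_mul_eq_mul_div, le_div_iff₀ hD]
    exact hr
  have h3 : (2 * M - 0.0793 * v) / (2 * M - 2.0793 * v) ≤ 1 + 2 * v / (2 * M - 3 * L * v) := by
    have e3 : (2 * M - 0.0793 * v) / (2 * M - 2.0793 * v) = 1 + 2 * v / (2 * M - 2.0793 * v) := by
      rw [div_eq_iff hD.ne', add_mul, div_mul_cancel₀ _ hD.ne']
      ring
    rw [e3]
    have : 2 * v / (2 * M - 2.0793 * v) ≤ 2 * v / (2 * M - 3 * L * v) := by
      apply div_le_div_of_nonneg_left (by linarith) hD2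
      nlinarith
    linarith
  have h4 : n * (1 / (M-v) + 1 / (12 * (M-v)^3) + (9/128) / (M-v)^5) ≤
      n * ((1 + 2 * v / (2 * M - 3 * L * v)) * (1 / M + 1 / (12 * M^3))) := by
    apply mul_le_mul_of_nonneg_left _ hn
    exact le_trans h2 (mul_le_mul_of_nonneg_right h3 hlampos.le)
  refine le_trans h4 ?_
  have h5 : 0 ≤ 1 + 2 * v / (2 * M - 3 * L * v) := by positivity
  calc n * ((1 + 2 * v / (2 * M - 3 * L * v)) * (1 / M + 1 / (12 * M^3)))
      = (1 + 2 * v / (2 * M - 3 * L * v)) * (n * (1 / M + 1 / (12 * M^3))) := by ring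
    _ ≤ (1 + 2 * v / (2 * M - 3 * L * v)) * L := mul_le_mul_of_nonneg_left hnb h5
    _ = L + L * (2 * v / (2 * M - 3 * L * v)) := by ring

/-- The last step. -/
lemma last_log {M n : ℝ} (hM : 23.5 ≤ M) (hn : 0 ≤ n) (hn2 : n * lam M ≤ Real.log 2) :
    n * lam (M + 1) < Real.log ((2 * M + 2 * Real.log 2) / (M + 2 * Real.log 2)) := by
  have hL1 := L_lo
  have hL2 := L_hi
  set L := Real.log 2 with hL
  have hM0 : 0 < M := by linarith
  have hup := lam_upper (z := M + 1) (by linarith)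
  have hlo := lam_lower (z := M) (by linarith)
  -- ratio
  have h1 : lam (M+1) * (M+1) ≤ lam M * M := by
    have h2 : lam (M+1) * (M+1) ≤ 1 + 1 / (12 * (M+1)^2) + (9/128) / (M+1)^4 := by
      have : (1 / (M+1) + 1 / (12 * (M+1)^3) + (9/128) / (M+1)^5) * (M+1)
          = 1 + 1 / (12 * (M+1)^2) + (9/128) / (M+1)^4 := by
        field_simp
      rw [← this]
      exact mul_le_mul_of_nonneg_right hup (by linarith)
    have h3 : 1 + 1 / (12 * M^2) ≤ lam M * M := by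
      have : (1 / M + 1 / (12 * M^3)) * M = 1 + 1 / (12 * M^2) := by field_simp
      rw [← this]
      exact mul_le_mul_of_nonneg_right hlo hM0.le
    have h4 : 1 / (12 * (M+1)^2) + (9/128) / (M+1)^4 ≤ 1 / (12 * M^2) := by
      have e1 : 1 / (12 * (M+1)^2) + (9/128) / (M+1)^4
          = ((M+1)^2 + 27/32) / (12 * (M+1)^4) := by field_simp; ring
      rw [e1, div_le_div_iff₀ (by positivity) (by positivity)]
      nlinarith [mul_pos hM0 hM0, mul_pos (mul_pos hM0 hM0) hM0]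
    linarith
  have h2 : n * lam (M+1) ≤ L * M / (M+1) := by
    rw [le_div_iff₀ (by linarith)]
    calc n * lam (M+1) * (M+1) = n * (lam (M+1) * (M+1)) := by ring
      _ ≤ n * (lam M * M) := mul_le_mul_of_nonneg_left h1 hn
      _ = (n * lam M) * M := by ring
      _ ≤ L * M := mul_le_mul_of_nonneg_right hn2 hM0.le
  refine lt_of_le_of_lt h2 ?_
  -- log side
  have e1 : (2 * M + 2 * L) / (M + 2 * L) = 2 * ((M + 2 * L)/(M + L))⁻¹ := by
    rw [inv_div]; field_simp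
  have hMLpos : 0 < M + L := by linarith
  have hM2Lpos : 0 < M + 2 * L := by linarith
  rw [e1, Real.log_mul (by norm_num) (by positivity), Real.log_inv, ← hL]
  have hy0 : 0 ≤ L / (2 * M + 3 * L) := by positivity
  have hy1 : L / (2 * M + 3 * L) < 1 := by
    rw [div_lt_one (by linarith)]; linarith
  have h3 := Real.log_div_le_sum_range_add hy0 hy1 0
  simp only [Finset.sum_range_zero] at h3
  have e2 : (1 + L / (2 * M + 3 * L)) / (1 - L / (2 * M + 3 * L)) = (M + 2*L) / (M + L) := by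
    have : 1 - L / (2 * M + 3 * L) = (2 * (M + L)) / (2 * M + 3 * L) := by field_simp; ring
    rw [this]
    field_simp
    ring
  rw [e2] at h3
  have e3 : (L / (2 * M + 3 * L)) ^ (2 * 0 + 1) / (1 - (L / (2 * M + 3 * L)) ^ 2)
      = L * (2 * M + 3 * L) / (4 * (M + L) * (M + 2 * L)) := by
    have h23 : 2 * M + 3 * L ≠ 0 := by positivity
    have : 1 - (L / (2 * M + 3 * L)) ^ 2 = (4 * (M + L) * (M + 2 * L)) / (2 * M + 3 * L)^2 := by
      rw [eq_div_iff (by positivity), sub_mul, div_pow, div_mul_cancel₀ _ (by positivity)]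
      ring
    rw [this, div_div_eq_mul_div]
    congr 1
    rw [mul_zero, zero_add, pow_one, div_mul_eq_mul_div, div_eq_iff h23]
    ring
  rw [e3] at h3
  have h4 : L * (2 * M + 3 * L) / (4 * (M + L) * (M + 2 * L)) < L / (2 * (M + 1)) := by
    rw [div_lt_div_iff₀ (by positivity) (by positivity)]
    have : (2 * M + 3 * L) * (2 * (M + 1)) < 4 * (M + L) * (M + 2 * L) := by nlinarith
    nlinarith
  have h5 : L * M / (M+1) = L - 2 * (L / (2 * (M+1))) := by
    field_simp; ring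
  rw [h5]
  linarith

/-- Power form of the step. -/
lemma pow_le_of_log {a b c d : ℝ} {n : ℕ} (ha : 0 < a) (hb : 0 < b) (hc : 0 < c) (hd : 0 < d)
    (h : (n:ℝ) * Real.log (b / a) ≤ Real.log (d / c)) : b^n * c ≤ a^n * d := by
  have h1 : Real.log ((b/a)^n) ≤ Real.log (d/c) := by
    rw [Real.log_pow]; exact h
  have h2 : (b/a)^n ≤ d/c := (Real.log_le_log_iff (by positivity) (by positivity)).1 h1
  rw [div_pow, div_le_div_iff₀ (by positivity) hc] at h2
  linarith [mul_comm (a^n) d]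

lemma pow_lt_of_log {a b c d : ℝ} {n : ℕ} (ha : 0 < a) (hb : 0 < b) (hc : 0 < c) (hd : 0 < d)
    (h : (n:ℝ) * Real.log (b / a) < Real.log (d / c)) : b^n * c < a^n * d := by
  have h1 : Real.log ((b/a)^n) < Real.log (d/c) := by
    rw [Real.log_pow]; exact h
  have h2 : (b/a)^n < d/c := (Real.log_lt_log_iff (by positivity) (by positivity)).1 h1
  rw [div_pow, div_lt_div_iff₀ (by positivity) hc] at h2
  linarith [mul_comm (a^n) d]

/-- `n * lam (m - 1/2) ≤ log 2`. -/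
lemma n_lam_le {m n : ℕ} (hm : 2 ≤ m) (h : (1 - 1 / (m : ℝ)) ^ n > 1 / 2) :
    (n:ℝ) * lam ((m:ℝ) - 1/2) ≤ Real.log 2 := by
  have hm' : (2:ℝ) ≤ m := by exact_mod_cast hm
  have hm0 : (m:ℝ) ≠ 0 := by positivity
  have e : lam ((m:ℝ) - 1/2) = - Real.log (1 - 1/(m:ℝ)) := by
    unfold lam
    rw [← Real.log_inv]
    congr 1
    rw [show (m:ℝ) - 1/2 + 1/2 = m by ring, show (m:ℝ) - 1/2 - 1/2 = m - 1 by ring]
    rw [one_sub_div hm0, inv_div]
  rw [e]
  have h1 : Real.log (1/2) ≤ Real.log ((1 - 1 / (m : ℝ)) ^ n) :=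
    Real.log_le_log (by norm_num) h.le
  rw [Real.log_pow, one_div, Real.log_inv] at h1
  linarith

/-- one step, all cases. -/
lemma one_step {m n j : ℕ} (hm : 24 ≤ m) (h : (1 - 1 / (m : ℝ)) ^ n > 1 / 2) (hj : j + 2 ≤ m) :
    ((j:ℝ) + 2)^n * (((m:ℝ) - 1/2) - 2 * Real.log 2 * ((m:ℝ) - 2 - j)) ≤
      ((j:ℝ) + 1)^n * (2 * ((m:ℝ) - 1/2) - 2 * Real.log 2 * ((m:ℝ) - 2 - j)) := by
  have hL1 := L_lo
  have hL2 := L_hi
  have hm' : (24:ℝ) ≤ m := by exact_mod_cast hm
  have hj' : (j:ℝ) + 2 ≤ m := by exact_mod_cast hj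
  have hj0 : (0:ℝ) ≤ j := by positivity
  have hnl := n_lam_le (by omega) h
  set L := Real.log 2 with hL
  have hRpos : 0 < 2 * ((m:ℝ) - 1/2) - 2 * L * ((m:ℝ) - 2 - j) := by nlinarith
  rcases le_or_gt (((m:ℝ) - 1/2) - 2 * L * ((m:ℝ) - 2 - j)) 0 with hneg | hpos
  · have h1 : ((j:ℝ) + 2)^n * (((m:ℝ) - 1/2) - 2 * L * ((m:ℝ) - 2 - j)) ≤ 0 :=
      mul_nonpos_of_nonneg_of_nonpos (by positivity) hneg
    have h2 : 0 ≤ ((j:ℝ) + 1)^n * (2 * ((m:ℝ) - 1/2) - 2 * L * ((m:ℝ) - 2 - j)) :=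
      mul_nonneg (by positivity) hRpos.le
    linarith
  · rcases Nat.lt_or_ge (j+2) m with hlt | hge
    · have hlt' : (j:ℝ) + 3 ≤ m := by exact_mod_cast hlt
      have hs := step_log (M := (m:ℝ) - 1/2) (v := (m:ℝ) - 2 - j) (n := n) (by linarith)
        (by linarith) hpos (by positivity) hnl
      apply pow_le_of_log (by positivity) (by positivity) hpos hRpos
      have e : lam ((m:ℝ) - 1/2 - ((m:ℝ) - 2 - j)) = Real.log (((j:ℝ) + 2) / ((j:ℝ)+1)) := by
        unfold lam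
        congr 1
        rw [show (m:ℝ) - 1/2 - ((m:ℝ) - 2 - j) + 1/2 = (j:ℝ) + 2 by ring,
          show (m:ℝ) - 1/2 - ((m:ℝ) - 2 - j) - 1/2 = (j:ℝ) + 1 by ring]
      rw [← e]
      exact hs
    · have hjm : m = j + 2 := by omega
      have hjm' : (m:ℝ) = j + 2 := by exact_mod_cast hjm
      rw [hjm'] at h ⊢
      have e1 : (1 - 1 / ((j:ℝ) + 2)) = ((j:ℝ)+1)/((j:ℝ)+2) := by
        have : (j:ℝ) + 2 ≠ 0 := by positivity
        rw [one_sub_div this]; ring_nf
      rw [e1, div_pow, gt_iff_lt, div_lt_div_iff₀ (by norm_num) (by positivity)] at h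
      have h3 : (0:ℝ) ≤ (j:ℝ) + 2 - 1/2 := by linarith
      have : ((j:ℝ) + 2)^n * ((j:ℝ) + 2 - 1/2) ≤ ((j:ℝ) + 1)^n * 2 * ((j:ℝ) + 2 - 1/2) := by
        apply mul_le_mul_of_nonneg_right _ h3
        linarith
      calc ((j:ℝ) + 2)^n * ((j:ℝ) + 2 - 1/2 - 2 * L * ((j:ℝ) + 2 - 2 - j))
          = ((j:ℝ) + 2)^n * ((j:ℝ) + 2 - 1/2) := by ring
        _ ≤ ((j:ℝ) + 1)^n * 2 * ((j:ℝ) + 2 - 1/2) := this
        _ = _ := by ring

/-- Main comparison. -/
lemma main_ind {m n : ℕ} (hm : 24 ≤ m) (h : (1 - 1 / (m : ℝ)) ^ n > 1 / 2) (j : ℕ) :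
    j + 1 ≤ m → ((j:ℝ) + 1)^n * ((((m:ℝ) - 1/2) - 2 * Real.log 2 * ((m:ℝ) - 1 - j)) /
      (((m:ℝ) - 1/2) + 2 * Real.log 2)) ≤ ∑ i ∈ Finset.Icc 1 j, (i:ℝ)^n := by
  have hL1 := L_lo
  have hL2 := L_hi
  have hm' : (24:ℝ) ≤ m := by exact_mod_cast hm
  set L := Real.log 2 with hL
  have hDpos : 0 < ((m:ℝ) - 1/2) + 2 * L := by linarith
  induction j with
  | zero =>
    intro _
    simp only [CharP.cast_eq_zero, zero_add, one_pow, one_mul, sub_zero]
    have : Finset.Icc 1 0 = (∅ : Finset ℕ) := by decide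
    rw [this, Finset.sum_empty]
    apply div_nonpos_of_nonpos_of_nonneg _ hDpos.le
    nlinarith
  | succ j ih =>
    intro hj
    have ih' := ih (by omega)
    have hs := one_step hm h (j := j) (by omega)
    rw [← hL] at hs
    rw [Finset.sum_Icc_succ_top (by omega)]
    have e1 : ((j + 1 : ℕ) : ℝ) = (j:ℝ) + 1 := by push_cast; ring
    rw [e1]
    have h1 : ((j:ℝ) + 1 + 1)^n * ((((m:ℝ) - 1/2) - 2 * L * ((m:ℝ) - 1 - (j + 1))) /
        (((m:ℝ) - 1/2) + 2 * L)) ≤ ((j:ℝ) + 1)^n * ((2 * ((m:ℝ) - 1/2) - 2 * L * ((m:ℝ) - 2 - j))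
        / (((m:ℝ) - 1/2) + 2 * L)) := by
      rw [← mul_div_assoc, ← mul_div_assoc]
      apply div_le_div_of_nonneg_right _ hDpos.le
      have e2 : (j:ℝ) + 1 + 1 = j + 2 := by ring
      have e3 : (m:ℝ) - 1 - (j + 1) = m - 2 - j := by ring
      rw [e2, e3]
      exact hs
    have h2 : ((j:ℝ) + 1)^n * ((2 * ((m:ℝ) - 1/2) - 2 * L * ((m:ℝ) - 2 - j))
        / (((m:ℝ) - 1/2) + 2 * L)) = ((j:ℝ) + 1)^n * ((((m:ℝ) - 1/2) - 2 * L * ((m:ℝ) - 1 - j)) /
      (((m:ℝ) - 1/2) + 2 * L)) + ((j:ℝ) + 1)^n := by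
      have : (2 * ((m:ℝ) - 1/2) - 2 * L * ((m:ℝ) - 2 - j))
        / (((m:ℝ) - 1/2) + 2 * L) = (((m:ℝ) - 1/2) - 2 * L * ((m:ℝ) - 1 - j)) /
      (((m:ℝ) - 1/2) + 2 * L) + 1 := by
        rw [div_add_one hDpos.ne']
        congr 1
        ring
      rw [this]; ring
    linarith

lemma large_case {m n : ℕ} (hm : 24 ≤ m) (h : (1 - 1 / (m : ℝ)) ^ n > 1 / 2) :
    ((m:ℝ) + 1)^n < ∑ i ∈ Finset.Icc 1 m, (i:ℝ)^n := by
  have hL1 := L_lo
  have hL2 := L_hi
  have hm' : (24:ℝ) ≤ m := by exact_mod_cast hm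
  have hnl := n_lam_le (by omega) h
  have hlast := last_log (M := (m:ℝ) - 1/2) (n := n) (by linarith) (by positivity) hnl
  obtain ⟨k, rfl⟩ : ∃ k, m = k + 1 := ⟨m - 1, by omega⟩
  have hi := main_ind hm h k le_rfl
  set L := Real.log 2 with hL
  have e1 : ((k + 1 : ℕ) : ℝ) = (k:ℝ) + 1 := by push_cast; ring
  rw [Finset.sum_Icc_succ_top (by omega)]
  rw [e1] at hlast hm' hi ⊢
  have hDpos : 0 < ((k:ℝ) + 1 - 1/2) + 2 * L := by linarith
  have e2 : lam ((k:ℝ) + 1 - 1/2 + 1) = Real.log (((k:ℝ) + 1 + 1)/((k:ℝ) + 1)) := by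
    unfold lam
    congr 1
    rw [show (k:ℝ) + 1 - 1/2 + 1 + 1/2 = k + 1 + 1 by ring,
      show (k:ℝ) + 1 - 1/2 + 1 - 1/2 = k + 1 by ring]
  rw [e2] at hlast
  have h1 := pow_lt_of_log (a := (k:ℝ)+1) (b := (k:ℝ)+1+1) (by positivity) (by positivity) hDpos
    (by linarith) hlast
  have h2 : ((k:ℝ) + 1 + 1)^n < ((k:ℝ)+1)^n * ((2 * ((k:ℝ) + 1 - 1/2) + 2 * L)
      / (((k:ℝ) + 1 - 1/2) + 2 * L)) := by
    rw [← mul_div_assoc, lt_div_iff₀ hDpos]
    exact h1
  have h3 : ((k:ℝ)+1)^n * ((2 * ((k:ℝ) + 1 - 1/2) + 2 * L)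
      / (((k:ℝ) + 1 - 1/2) + 2 * L)) = ((k:ℝ)+1)^n * ((((k:ℝ) + 1 - 1/2) - 2 * L * ((k:ℝ) + 1 - 1 - k)) /
      (((k:ℝ) + 1 - 1/2) + 2 * L)) + ((k:ℝ)+1)^n := by
    have : (2 * ((k:ℝ) + 1 - 1/2) + 2 * L)
      / (((k:ℝ) + 1 - 1/2) + 2 * L) = (((k:ℝ) + 1 - 1/2) - 2 * L * ((k:ℝ) + 1 - 1 - k)) /
      (((k:ℝ) + 1 - 1/2) + 2 * L) + 1 := by
      rw [div_add_one hDpos.ne']
      congr 1
      ring
    rw [this]; ring
  linarith

/-- The small cases. -/
lemma small_check : ∀ m < 24, ∀ n < 17, 1 ≤ n → 2 ≤ m → m^n < 2 * (m-1)^n →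
    (m + 1)^n < ((List.range (m+1)).map (fun i => i^n)).sum := by
  decide +kernel

/-- Second inequality. -/
theorem second_ineq {m n : ℕ} (hn : 1 ≤ n) (hm : 2 ≤ m) (h : (1 - 1 / (m : ℝ)) ^ n > 1 / 2) :
    (m + 1)^n < ∑ i ∈ Finset.Icc 1 m, i^n := by
  have hm2 : (2:ℝ) ≤ m := by exact_mod_cast hm
  rcases Nat.lt_or_ge m 24 with hlt | hge
  · have hm0 : (m:ℝ) ≠ 0 := by positivity
    have h' : m^n < 2 * (m-1)^n := by
      have h1 := h
      rw [one_sub_div hm0, div_pow, gt_iff_lt, div_lt_div_iff₀ (by norm_num) (by positivity)] at h1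
      have h2 : ((m^n : ℕ) : ℝ) < ((2 * (m-1)^n : ℕ) : ℝ) := by
        push_cast [Nat.cast_sub (by omega : 1 ≤ m)]
        linarith
      exact_mod_cast h2
    have hn17 : n < 17 := by
      by_contra hcon
      push Not at hcon
      have h1 : (1 - 1 / (m : ℝ)) ≤ 22/23 := by
        have hm23 : (m:ℝ) ≤ 23 := by exact_mod_cast (by omega : m ≤ 23)
        have : 1/23 ≤ 1/(m:ℝ) := by
          apply one_div_le_one_div_of_le (by positivity) hm23
        linarith
      have h0 : 0 ≤ (1 - 1 / (m : ℝ)) := by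
        have : 1/(m:ℝ) ≤ 1 := by
          rw [div_le_one (by positivity)]; linarith
        linarith
      have h2 : (1 - 1 / (m : ℝ))^n ≤ (22/23)^n := pow_le_pow_left₀ h0 h1 n
      have h3 : ((22:ℝ)/23)^n ≤ (22/23)^17 :=
        pow_le_pow_of_le_one (by norm_num) (by norm_num) hcon
      have h4 : ((22:ℝ)/23)^17 < 1/2 := by norm_num
      linarith
    have := small_check m hlt n hn17 hn hm h'
    refine lt_of_lt_of_eq this ?_
    rw [← List.sum_toFinset]
    · have : (List.range (m+1)).toFinset = Finset.range (m+1) := by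
        ext x; simp
      rw [this, Finset.range_eq_Ico, Finset.sum_eq_sum_Ico_succ_bot (by omega)]
      rw [zero_pow (by omega), zero_add]
      rfl
    · exact List.nodup_range
  · have := large_case hge h
    have h2 : (((m+1)^n : ℕ) : ℝ) < ((∑ i ∈ Finset.Icc 1 m, i^n : ℕ) : ℝ) := by
      push_cast
      exact this
    exact_mod_cast h2

/-- First inequality. -/
theorem first_ineq {m n : ℕ} (hm : 2 ≤ m) (h : (1 - 1 / ((m : ℝ) - 1)) ^ n < 1 / 2) :
    (m - 1)^n > ∑ i ∈ Finset.Icc 1 (m-2), i^n := by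
  obtain ⟨M, rfl⟩ : ∃ M, m = M + 2 := ⟨m - 2, by omega⟩
  have e1 : M + 2 - 1 = M + 1 := by omega
  have e2 : M + 2 - 2 = M := by omega
  rw [e1, e2]
  have h0 : ∀ j : ℕ, j ≤ M → ∑ i ∈ Finset.Icc 1 j, i^n < (j+1)^n := by
    intro j
    induction j with
    | zero => intro _; simp
    | succ j ih =>
      intro hj
      have ih' := ih (by omega)
      rw [Finset.sum_Icc_succ_top (by omega)]
      have hkey : 2 * (j+1)^n ≤ (j+2)^n := by
        have hM : ((M + 2 : ℕ) : ℝ) - 1 = (M:ℝ) + 1 := by push_cast; ring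
        rw [hM] at h
        have hj' : (j:ℝ) + 1 ≤ M := by exact_mod_cast hj
        have hj0 : (0:ℝ) ≤ j := by positivity
        have h1 : ((j:ℝ)+1)/((j:ℝ)+2) ≤ 1 - 1/((M:ℝ)+1) := by
          have e : ((j:ℝ)+1)/((j:ℝ)+2) = 1 - 1/((j:ℝ)+2) := by
            have : (j:ℝ) + 2 ≠ 0 := by positivity
            rw [one_sub_div this]; ring_nf
          rw [e]
          have : 1/((M:ℝ)+1) ≤ 1/((j:ℝ)+2) := by
            apply one_div_le_one_div_of_le (by positivity); linarith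
          linarith
        have h2 : (((j:ℝ)+1)/((j:ℝ)+2))^n ≤ (1 - 1/((M:ℝ)+1))^n :=
          pow_le_pow_left₀ (by positivity) h1 n
        have h3 : (((j:ℝ)+1)/((j:ℝ)+2))^n < 1/2 := lt_of_le_of_lt h2 h
        rw [div_pow, div_lt_div_iff₀ (by positivity) (by norm_num)] at h3
        have h4 : ((2 * (j+1)^n : ℕ) : ℝ) < (((j+2)^n : ℕ) : ℝ) := by
          push_cast
          linarith
        exact le_of_lt (by exact_mod_cast h4)
      have e3 : j + 1 + 1 = j + 2 := by ring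
      rw [e3]
      omega
  exact h0 M le_rfl

end Pool.Agent.U535.ErdosSum
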